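import Pool.Agent.Lib.MP_81cdd9_nt.NR.K

/-! The `5x+1` map: for almost all integers `n`, for all times `k` up to a time of order `(log |n|)^2 / log log |n|`, some value
`T^(k+j)(n)` with `j ≤ (3/2) log |n|` is at least `|n| ^ 1.01`. -/

set_option autoImplicit false

namespace Pool.Agent.Results.MP_81cdd9_nt.Excursions

/-- the `5x+1` map -/
def T (n : ℤ) : ℤ := if n % 2 = 0 then n / 2 else (5 * n + 1) / 2

/-- density one, as in the problem -/
def DensityOne (A : Set ℤ) : Prop :=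
  Filter.Tendsto (fun N : ℕ => ((Set.Icc (-(N : ℤ)) (N : ℤ) ∩ A).ncard : ℝ) / (2 * (N : ℝ) + 1)) Filter.atTop (nhds 1)

/-- The set of the integers `n` such that for all `k` with `k log log |n| ≤ (log |n|)^2 / (2 10^6)` there is `j ≤ (3/2) log |n|` with
`|T^(k+j)(n)| ≥ |n|^1.01` has density one. -/
theorem result : DensityOne {n : ℤ | ∀ k : ℕ,
    k * Real.log (Real.log |(n : ℝ)|) ≤ 1 / (2 * 10 ^ 6) * Real.log |(n : ℝ)| ^ 2 →
      ∃ j : ℕ, (j : ℝ) ≤ 3 / 2 * Real.log |(n : ℝ)| ∧ |(n : ℝ)| ^ (1.01 : ℝ) ≤ |((T^[k + j] n : ℤ) : ℝ)|} :=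
  Pool.Agent.MP81cdd9.NR.excursions

end Pool.Agent.Results.MP_81cdd9_nt.Excursions
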