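import Pool.Agent.Lib.MP_81cdd9_nt.HZ.G7

/-! Almost all integers `n` reach `|n|^(log 5 / (2 log 2) + c)` under the `5x+1` map, for some `c > 0`. -/

set_option autoImplicit false

namespace Pool.Agent.Results.MP_81cdd9_nt.GrowthBeyondHorizon

open Pool.Agent.MP81cdd9.HZ

/-- There is `c > 0` such that the integers `n` with `|T^k(n)| ≥ |n|^(log 5/(2 log 2) + c)` for some `k ≤ 2 ⌊log_2 |n|⌋` have density one. -/
theorem result : ∃ c : ℝ, 0 < c ∧ DensityOne {n : ℤ | ∃ k : ℕ, k ≤ 2 * Nat.log 2 n.natAbs ∧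
    |(n : ℝ)| ^ (Real.log 5 / (2 * Real.log 2) + c) ≤ |((T^[k] n : ℤ) : ℝ)|} :=
  growth_density

end Pool.Agent.Results.MP_81cdd9_nt.GrowthBeyondHorizon
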