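import Pool.Agent.Lib.MP_81cdd9_nt.NR.E

/-! The `5x+1` map: for almost all integers `n` no value of the trajectory of `n`, at any time `k`, is smaller than
`|n| / (log |n|) ^ (2000 (1 + k / log |n|))`. -/

set_option autoImplicit false

namespace Pool.Agent.Results.MP_81cdd9_nt.NoReturn

/-- the `5x+1` map -/
def T (n : ℤ) : ℤ := if n % 2 = 0 then n / 2 else (5 * n + 1) / 2

/-- density one, as in the problem -/
def DensityOne (A : Set ℤ) : Prop :=
  Filter.Tendsto (fun N : ℕ => ((Set.Icc (-(N : ℤ)) (N : ℤ) ∩ A).ncard : ℝ) / (2 * (N : ℝ) + 1)) Filter.atTop (nhds 1)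

/-- The set of the integers `n` such that `|n| ≤ |T^k(n)| (log |n|)^(2000 (1 + k / log |n|))` for ALL `k ≥ 0` has density one. -/
theorem result : DensityOne {n : ℤ | ∀ k : ℕ,
    |(n : ℝ)| ≤ |((T^[k] n : ℤ) : ℝ)| * Real.log |(n : ℝ)| ^ (2000 * (1 + k / Real.log |(n : ℝ)|))} :=
  Pool.Agent.MP81cdd9.NR.no_return

end Pool.Agent.Results.MP_81cdd9_nt.NoReturn
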