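import Pool.Agent.Lib.MP_81cdd9_nt.HZ.G8

/-! After the first `⌊log_2 |n|⌋` steps the parity word of the next `ε log_2 |n|` steps of the `5x+1` map avoids, for almost all `n`,
every prescribed family of `2^((1-κ) ε log_2 |n|)` words. -/

set_option autoImplicit false

namespace Pool.Agent.Results.MP_81cdd9_nt.ParityEntropy

open Pool.Agent.MP81cdd9.HZ

/-- For every `κ > 0` there is `ε ∈ (0, 1]` such that for every choice of families `W L` of at most `2^((1-κ) ⌊ε L⌋)` parity words of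
length `⌊ε L⌋` the integers `n` whose word of parities at the times `L ≤ k < L + ⌊ε L⌋`, `L = ⌊log_2 |n|⌋`, is not in `W L` have density one. -/
theorem result : ∀ κ : ℝ, 0 < κ → ∃ ε : ℝ, 0 < ε ∧ ε ≤ 1 ∧ ∀ W : ℕ → Finset (Finset ℕ),
    (∀ L : ℕ, ((W L).card : ℝ) ≤ (2 : ℝ) ^ ((1 - κ) * (⌊ε * L⌋₊ : ℝ))) →
    DensityOne {n : ℤ | par ⌊ε * (Nat.log 2 n.natAbs : ℝ)⌋₊ (T^[Nat.log 2 n.natAbs] n) ∉ W (Nat.log 2 n.natAbs)} :=
  word_entropy

end Pool.Agent.Results.MP_81cdd9_nt.ParityEntropy
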